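import Mathlib
import Pool.Agent.Work.MP_44e7ab_co.TD

set_option autoImplicit false

namespace Pool.Agent.Results.MP_44e7ab_co.PathBicliqueFree

open Pool.Agent.Work.MP_44e7ab_co

lemma noKnn_of_isEmpty {V : Type} {G : SimpleGraph V} {n : ℕ}
    (h : IsEmpty (completeBipartiteGraph (Fin n) (Fin n) ↪g G)) : NoKnn G n := by
  intro A B hA hB hAi hBi hAB
  let a : Fin n ≃ A := (A.equivFinOfCardEq hA).symm
  let b : Fin n ≃ B := (B.equivFinOfCardEq hB).symm
  refine h.false ⟨⟨fun x => Sum.elim (fun i => (a i : V)) (fun i => (b i : V)) x, ?_⟩, ?_⟩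
  · intro x y hxy
    rcases x with x | x <;> rcases y with y | y <;> simp only [Sum.elim_inl, Sum.elim_inr] at hxy
    · rw [a.injective (Subtype.ext hxy)]
    · exact absurd (hAB _ (a x).2 _ (b y).2) (by rw [hxy]; exact G.irrefl)
    · exact absurd (hAB _ (a y).2 _ (b x).2) (by rw [hxy]; exact G.irrefl)
    · rw [b.injective (Subtype.ext hxy)]
  · have hA' : ∀ x y : Fin n, ¬ G.Adj (a x : V) (a y : V) := by
      intro x y
      by_cases hxy : (a x : V) = (a y : V)
      · rw [hxy]
        exact G.irrefl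
      · exact hAi (a x).2 (a y).2 hxy
    have hB' : ∀ x y : Fin n, ¬ G.Adj (b x : V) (b y : V) := by
      intro x y
      by_cases hxy : (b x : V) = (b y : V)
      · rw [hxy]
        exact G.irrefl
      · exact hBi (b x).2 (b y).2 hxy
    intro x y
    rcases x with x | x <;> rcases y with y | y
    · exact iff_of_false (hA' x y) (by simp)
    · exact iff_of_true (hAB _ (a x).2 _ (b y).2) (by simp)
    · exact iff_of_true (hAB _ (a y).2 _ (b x).2).symm (by simp)
    · exact iff_of_false (hB' x y) (by simp)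

/-- For every `n` there is `k` such that every finite graph with no induced path on `n` vertices
and no induced complete bipartite graph `K_{n,n}` has a tree decomposition whose bags each have
independence number at most `k`. -/
theorem result :
    ∀ n : ℕ, ∃ k : ℕ, ∀ (V : Type) [Fintype V] (G : SimpleGraph V),
      IsEmpty (SimpleGraph.pathGraph n ↪g G) →
      IsEmpty (completeBipartiteGraph (Fin n) (Fin n) ↪g G) →
      ∃ (ι : Type) (_ : Fintype ι) (T : SimpleGraph ι) (X : ι → Finset V),
        T.IsTree ∧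
        (∀ v, ∃ t, v ∈ X t) ∧
        (∀ u v, G.Adj u v → ∃ t, u ∈ X t ∧ v ∈ X t) ∧
        (∀ v, ∀ s t, v ∈ X s → v ∈ X t → ∃ p : T.Walk s t, ∀ x ∈ p.support, v ∈ X x) ∧
        (∀ t, ∀ I : Finset V, I ⊆ X t → G.IsIndepSet (I : Set V) → I.card ≤ k) := by
  intro n
  have key : ∃ k : ℕ, ∀ (V : Type) [Fintype V] (G : SimpleGraph V),
      IsEmpty (SimpleGraph.pathGraph n ↪g G) →
      IsEmpty (completeBipartiteGraph (Fin n) (Fin n) ↪g G) → HasTD G k Finset.univ {∅} := by
    by_cases hn : 2 ≤ n
    · obtain ⟨s0, K, hK, hsep⟩ := main_sep.{0} n hn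
      refine ⟨K + s0, ?_⟩
      intro V _ G hP hKnn
      exact hasTD_univ hK (hsep V G hP (noKnn_of_isEmpty hKnn))
    · refine ⟨0, ?_⟩
      intro V _ G hP _
      have hV : IsEmpty V := by
        rcases Nat.lt_or_ge n 1 with h | h
        · obtain rfl : n = 0 := by omega
          exact absurd hP (by
            rw [not_isEmpty_iff]
            exact ⟨⟨⟨fun i => i.elim0, fun i => i.elim0⟩, fun {i} => i.elim0⟩⟩)
        · obtain rfl : n = 1 := by omega
          refine ⟨fun v => hP.false ⟨⟨fun _ => v, fun i j _ => Subsingleton.elim i j⟩, ?_⟩⟩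
          intro i j
          rw [Subsingleton.elim i j]
          simp
      have h := hasTD_empty G 0
      have he : (Finset.univ : Finset V) = ∅ := Finset.univ_eq_empty
      rw [he]
      exact h
  obtain ⟨k, hk⟩ := key
  refine ⟨k, ?_⟩
  intro V _ G hP hKnn
  obtain ⟨ι, hι, T, X, h1, -, h3, h4, h5, h6, -⟩ := hk V G hP hKnn
  exact ⟨ι, hι, T, X, h1, fun v => h3 v (Finset.mem_univ v),
    fun u v huv => h4 u (Finset.mem_univ u) v (Finset.mem_univ v) huv, h5, h6⟩

end Pool.Agent.Results.MP_44e7ab_co.PathBicliqueFree
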